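import Mathlib

/-!
# Regular 2-pseudocompact paratopological groups are topological groups (MP_82b063_al, Q2)

Proof. Let `V n` be open neighbourhoods of the unit with `V (n+1) ^ 3 ⊆ V n` and
`closure (V (n+1)) ⊆ V n`; the intersection `N` of the `V n` is a submonoid.
* `N` is a group: for `a ∈ N` and a small neighbourhood `W` of the unit, apply 2-pseudocompactness to
  the sets `⋃ k ≥ n, W a ^ k`; this gives `s, s' ∈ W W` and `k < k'` with `s a ^ k = s' a ^ k'`, hence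
  `s a⁻¹ = s' a ^ (k' - k - 1)` lies in `V m`, and `a⁻¹` is in the closure of `V m`.
* If `a n ∈ V n` and `(a n)⁻¹ ∉ V 0` for all `n`, apply 2-pseudocompactness to the sets
  `⋃ k ≥ n, V k a k`: the inverse of the point obtained lies in `N`, hence so does the point, and
  this forces `(a k)⁻¹ ∈ V 0` for some `k`.
-/

set_option autoImplicit false

namespace Pool.Agent.Results.MP_82b063_al.RegularTwoPseudocompact

open Set Filter Topology Pointwise

universe u

/-- `G` is 2-pseudocompact: for every decreasing sequence of nonempty open sets the closures of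
their inverses have a common point. -/
def TwoPseudocompact (G : Type u) [Group G] [TopologicalSpace G] : Prop :=
  ∀ U : ℕ → Set G, Antitone U → (∀ n, IsOpen (U n)) → (∀ n, (U n).Nonempty) →
    (⋂ n, closure (U n)⁻¹).Nonempty

section

variable {G : Type u} [Group G] [TopologicalSpace G] [ContinuousMul G]

/-- Application of 2-pseudocompactness to `⋃ k ≥ n, W k b k`. -/
lemma exists_point (h : TwoPseudocompact G) (W : ℕ → Set G) (hW : ∀ n, IsOpen (W n))
    (hW1 : ∀ n, (1 : G) ∈ W n) (b : ℕ → G) :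
    ∃ y : G, ∀ V : Set G, IsOpen V → (1 : G) ∈ V → ∀ n, ∃ k, n ≤ k ∧ ∃ v ∈ V, ∃ w ∈ W k,
      y = v * w * b k := by
  obtain ⟨x, hx⟩ := h (fun n => ⋃ k ≥ n, (fun g => g * b k) '' W k)
    (by
      intro m n hmn z hz
      simp only [Set.mem_iUnion] at hz ⊢
      obtain ⟨k, hk, hz⟩ := hz
      exact ⟨k, le_trans hmn hk, hz⟩)
    (by
      intro n
      refine isOpen_biUnion fun k _ => ?_
      exact (Homeomorph.mulRight (b k)).isOpenMap _ (hW k))
    (by
      intro n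
      exact ⟨1 * b n, Set.mem_iUnion₂.2 ⟨n, le_refl n, ⟨1, hW1 n, rfl⟩⟩⟩)
  refine ⟨x⁻¹, fun V hV hV1 n => ?_⟩
  have hxn := Set.mem_iInter.1 hx n
  have hop : IsOpen ((fun g => x * g) '' V) := (Homeomorph.mulLeft x).isOpenMap _ hV
  obtain ⟨z, ⟨v, hv, rfl⟩, hz⟩ := mem_closure_iff.1 hxn _ hop ⟨1, hV1, by simp⟩
  rw [Set.mem_inv] at hz
  simp only [Set.mem_iUnion] at hz
  obtain ⟨k, hk, w, hw, hwz⟩ := hz
  refine ⟨k, hk, v, hv, w, hw, ?_⟩
  have h1 : w * b k = (x * v)⁻¹ := hwz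
  rw [mul_assoc, h1]
  group

/-- The sequence of neighbourhoods. -/
lemma exists_seq [RegularSpace G] (U : Set G) (hU : U ∈ 𝓝 (1 : G)) :
    ∃ V : ℕ → Set G, (∀ n, IsOpen (V n)) ∧ (∀ n, (1 : G) ∈ V n) ∧ V 0 ⊆ U ∧
      (∀ n, V (n + 1) * V (n + 1) * V (n + 1) ⊆ V n) ∧ (∀ n, closure (V (n + 1)) ⊆ V n) := by
  have step : ∀ O : {O : Set G // IsOpen O ∧ (1 : G) ∈ O},
      ∃ V : {O : Set G // IsOpen O ∧ (1 : G) ∈ O}, V.1 * V.1 * V.1 ⊆ O.1 ∧ closure V.1 ⊆ O.1 := by
    rintro ⟨O, hO, hO1⟩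
    have hOn : O ∈ 𝓝 (1 : G) := hO.mem_nhds hO1
    obtain ⟨C, hC, hCc, hCO⟩ := exists_mem_nhds_isClosed_subset hOn
    have hc : ContinuousAt (fun p : G × G × G => p.1 * p.2.1 * p.2.2) (1, 1, 1) := by
      fun_prop
    have hpre : (fun p : G × G × G => p.1 * p.2.1 * p.2.2) ⁻¹' O ∈ 𝓝 ((1, 1, 1) : G × G × G) := by
      apply hc
      simpa using hOn
    rw [nhds_prod_eq, nhds_prod_eq, Filter.mem_prod_iff] at hpre
    obtain ⟨A, hA, B, hB, hAB⟩ := hpre
    obtain ⟨B1, hB1, B2, hB2, hB12⟩ := Filter.mem_prod_iff.1 hB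
    have hI : A ∩ (B1 ∩ (B2 ∩ C)) ∈ 𝓝 (1 : G) :=
      Filter.inter_mem hA (Filter.inter_mem hB1 (Filter.inter_mem hB2 hC))
    obtain ⟨V, hVs, hV, hV1⟩ := mem_nhds_iff.1 hI
    refine ⟨⟨V, hV, hV1⟩, ?_, ?_⟩
    · rintro z ⟨z', ⟨p, hp, q, hq, rfl⟩, r, hr, rfl⟩
      exact hAB (show ((p, q, r) : G × G × G) ∈ A ×ˢ B from
        ⟨(hVs hp).1, hB12 ⟨(hVs hq).2.1, (hVs hr).2.2.1⟩⟩)
    · exact (closure_minimal (fun z hz => (hVs hz).2.2.2) hCc).trans hCO
  choose f hf1 hf2 using step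
  obtain ⟨O, hOU, hO, hO1⟩ := mem_nhds_iff.1 hU
  let V : ℕ → {O : Set G // IsOpen O ∧ (1 : G) ∈ O} := fun n => f^[n] ⟨O, hO, hO1⟩
  have hV : ∀ n, V (n + 1) = f (V n) := fun n => Function.iterate_succ_apply' f n _
  refine ⟨fun n => (V n).1, fun n => (V n).2.1, fun n => (V n).2.2, hOU, fun n => ?_, fun n => ?_⟩
  · show (V (n + 1)).1 * (V (n + 1)).1 * (V (n + 1)).1 ⊆ (V n).1
    rw [hV n]
    exact hf1 (V n)
  · show closure (V (n + 1)).1 ⊆ (V n).1
    rw [hV n]
    exact hf2 (V n)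

end

/-- Every regular 2-pseudocompact paratopological group is a topological group. -/
theorem result (G : Type u) [Group G] [TopologicalSpace G] [ContinuousMul G] [RegularSpace G]
    (h : TwoPseudocompact G) : IsTopologicalGroup G := by
  have key : Tendsto (fun x : G => x⁻¹) (𝓝 1) (𝓝 1) := by
    intro U hU
    obtain ⟨V, hVo, hV1, hV0, hV3, hVc⟩ := exists_seq U hU
    have hmono : Antitone V := by
      refine antitone_nat_of_succ_le fun n z hz => ?_
      exact hV3 n ⟨z * 1, ⟨z, hz, 1, hV1 _, rfl⟩, 1, hV1 _, by simp⟩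
    have htrip : ∀ n {p q r : G}, p ∈ V (n + 1) → q ∈ V (n + 1) → r ∈ V (n + 1) →
        p * q * r ∈ V n := fun n {p q r} hp hq hr => hV3 n ⟨p * q, ⟨p, hp, q, hq, rfl⟩, r, hr, rfl⟩
    have hmul : ∀ {a b : G}, (∀ n, a ∈ V n) → (∀ n, b ∈ V n) → ∀ n, a * b ∈ V n := by
      intro a b ha hb n
      have := htrip n (ha (n + 1)) (hb (n + 1)) (hV1 (n + 1))
      simpa using this
    have hpow : ∀ {a : G}, (∀ n, a ∈ V n) → ∀ j n, a ^ j ∈ V n := by
      intro a ha j
      induction j with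
      | zero => intro n; simpa using hV1 n
      | succ j ih => rw [pow_succ]; exact hmul ih ha
    have hinv : ∀ {a : G}, (∀ n, a ∈ V n) → ∀ n, a⁻¹ ∈ V n := by
      intro a ha m
      apply hVc m
      rw [mem_closure_iff]
      intro O hO haO
      have hc : ContinuousAt (fun p : G × G => p.1 * p.2 * a⁻¹) (1, 1) := by fun_prop
      have hpre : (fun p : G × G => p.1 * p.2 * a⁻¹) ⁻¹' O ∈ 𝓝 ((1, 1) : G × G) := by
        apply hc
        simpa using hO.mem_nhds haO
      rw [nhds_prod_eq, Filter.mem_prod_iff] at hpre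
      obtain ⟨A, hA, B, hB, hAB⟩ := hpre
      have hI : A ∩ (B ∩ V (m + 2)) ∈ 𝓝 (1 : G) :=
        Filter.inter_mem hA (Filter.inter_mem hB ((hVo _).mem_nhds (hV1 _)))
      obtain ⟨W, hWs, hW, hW1⟩ := mem_nhds_iff.1 hI
      obtain ⟨y, hy⟩ := exists_point h (fun _ => W) (fun _ => hW) (fun _ => hW1) (fun k => a ^ k)
      obtain ⟨k, -, v, hv, w, hw, e1⟩ := hy W hW hW1 0
      obtain ⟨k', hk', v', hv', w', hw', e2⟩ := hy W hW hW1 (k + 1)
      refine ⟨v * w * a⁻¹, hAB (show ((v, w) : G × G) ∈ A ×ˢ B from ⟨(hWs hv).1, (hWs hw).2.1⟩), ?_⟩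
      obtain ⟨j, rfl⟩ := Nat.exists_eq_add_of_le hk'
      have e3 : v * w * a⁻¹ = v' * w' * a ^ j := by
        have e4 : v * w * a ^ k = v' * w' * a ^ (k + 1 + j) := by rw [← e1, ← e2]
        have e5 : v * w = v' * w' * a ^ (k + 1 + j) * (a ^ k)⁻¹ := by rw [← e4]; group
        rw [e5]
        have e6 : a ^ (k + 1 + j) = a ^ j * a * a ^ k := by
          rw [← pow_succ, ← pow_add]; congr 1; omega
        rw [e6]
        group
      rw [e3]
      exact htrip (m + 1) (hWs hv').2.2 (hWs hw').2.2 (hpow ha j (m + 2))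
    by_contra hcon
    have hex : ∀ n, ∃ a ∈ V n, a⁻¹ ∉ U := by
      intro n
      by_contra hne
      push Not at hne
      apply hcon
      rw [Filter.mem_map]
      exact Filter.mem_of_superset ((hVo n).mem_nhds (hV1 n)) hne
    choose a haV haU using hex
    obtain ⟨y, hy⟩ := exists_point h V hVo hV1 a
    have hyN : ∀ n, y ∈ V n := by
      intro n
      obtain ⟨k, hk, v, hv, w, hw, e⟩ := hy (V (n + 1)) (hVo _) (hV1 _) (n + 1)
      rw [e]
      exact htrip n hv (hmono hk hw) (hmono hk (haV k))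
    obtain ⟨k, hk, v, hv, w, hw, e⟩ := hy (V 1) (hVo _) (hV1 _) 1
    apply haU k
    have e2 : (a k)⁻¹ = y⁻¹ * v * w := by rw [e]; group
    rw [e2]
    exact hV0 (htrip 0 (hinv hyN 1) hv (hmono hk hw))
  have hci : ContinuousInv G := by
    constructor
    rw [continuous_iff_continuousAt]
    intro x
    have h1 : (fun z : G => z⁻¹) = (fun g => g * x⁻¹) ∘ (fun g => g⁻¹) ∘ (fun z => x⁻¹ * z) := by
      funext z
      simp
    have h2 : Tendsto (fun z : G => x⁻¹ * z) (𝓝 x) (𝓝 1) := by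
      have : ContinuousAt (fun z : G => x⁻¹ * z) x := by fun_prop
      simpa [ContinuousAt] using this
    have h3 : Tendsto (fun g : G => g * x⁻¹) (𝓝 1) (𝓝 x⁻¹) := by
      have : ContinuousAt (fun g : G => g * x⁻¹) 1 := by fun_prop
      simpa [ContinuousAt] using this
    show Tendsto (fun z : G => z⁻¹) (𝓝 x) (𝓝 x⁻¹)
    rw [h1]
    exact h3.comp (key.comp h2)
  exact { toContinuousMul := inferInstance, toContinuousInv := hci }

end Pool.Agent.Results.MP_82b063_al.RegularTwoPseudocompact
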